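import Pool.Agent.Helper74.HG.GoalsB

/-!
# Project HG, packet POL: poles of `Z / (s + 1)`
-/

set_option autoImplicit false

namespace Pool.Agent.Helper26.HG.POL

open Polynomial

theorem alg_X_add_one : (RatFunc.X + 1 : RatFunc ℂ) =
    algebraMap ℂ[X] (RatFunc ℂ) (X + 1) := by
  rw [map_add, map_one, RatFunc.algebraMap_X]

theorem X_add_one_ne : (RatFunc.X + 1 : RatFunc ℂ) ≠ 0 := by
  rw [alg_X_add_one]
  intro h
  have h1 : (X + 1 : ℂ[X]) = 0 := by
    have := (map_eq_zero_iff _ (IsFractionRing.injective ℂ[X] (RatFunc ℂ))).1 h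
    exact this
  have h2 := congrArg (fun p : ℂ[X] => p.eval 0) h1
  simp at h2

theorem t : Pool.Agent.Helper74.HG.POL := by
  intro Z s₀
  have hne := X_add_one_ne
  constructor
  · intro h
    have hZ : Z = (RatFunc.X + 1) * ((RatFunc.X + 1)⁻¹ * Z) := by
      rw [← mul_assoc, mul_inv_cancel₀ hne, one_mul]
    have h1 := RatFunc.denom_mul_dvd (RatFunc.X + 1 : RatFunc ℂ) ((RatFunc.X + 1)⁻¹ * Z)
    rw [← hZ, alg_X_add_one, RatFunc.denom_algebraMap, one_mul, ← alg_X_add_one] at h1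
    exact h.dvd h1
  · intro hs h
    have h1 := RatFunc.denom_mul_dvd ((RatFunc.X + 1)⁻¹ : RatFunc ℂ) Z
    have h2 := RatFunc.denom_inv_dvd hne
    rw [alg_X_add_one, RatFunc.num_algebraMap, ← alg_X_add_one] at h2
    have h3 := h.dvd (h1.trans (mul_dvd_mul_right h2 _))
    rw [IsRoot.def, eval_mul, mul_eq_zero] at h3
    rcases h3 with h3 | h3
    · exfalso
      apply hs
      rw [eval_add, eval_X, eval_one] at h3
      exact eq_neg_of_add_eq_zero_left h3
    · exact h3

end Pool.Agent.Helper26.HG.POL
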